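import Pool.Agent.H151R2.STS.Count

/-!
# The number of cyclic Steiner triple systems tends to infinity

`C n` is the number of isomorphism classes of cyclic Steiner triple systems with `n` points
(`Pool.Agent.H151R2.STS.C`).  For every `n ≥ 46` with `n ≡ 1, 3 (mod 6)` we show
`C n ≥ 2 ^ ⌊n/6⌋ / n ^ ⌊log₂ (n+1)⌋`; in particular `C n → ∞` through these `n`.
-/

namespace Pool.Agent.Results.MP_72c5f4_co.Exponential

open Pool.Agent.H151R2.STS

theorem result :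
    (∀ n : ℕ, 46 ≤ n → (n % 6 = 1 ∨ n % 6 = 3) →
      2 ^ (n / 6) ≤ C n * n ^ Nat.log 2 (n + 1)) ∧
    (∀ M : ℕ, ∃ N : ℕ, ∀ n : ℕ, N ≤ n → (n % 6 = 1 ∨ n % 6 = 3) → M ≤ C n) :=
  ⟨fun _ hn h => two_pow_le hn h, tendsto_C⟩

end Pool.Agent.Results.MP_72c5f4_co.Exponential
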